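import Pool.Agent.LibPM67.Main

/-!
# The homological Parshin conjecture when `(V × V × W)/Γ` is linear

`V` is proper and smooth over the finite field `k`, `W` is smooth and geometrically irreducible,
the finite group `Γ` acts on both, and `(V × V × W)/Γ` is a linear variety. Then
`CH_m(V, i) ⊗ E = 0` for all `m ≤ 0` and `i > 0`, and the same holds for every smooth proper `X`
with a surjective morphism from `V`. The statement holds for every `m` such that the generalised
eigenspaces of Frobenius for `q^m` and `q^(d-m)` are spanned by classes of cycles and by vectors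
which are fixed by subgroups `B` such that `(V × W)/B` is linear. This applies to all smooth
compactifications `V` of Deligne-Lusztig varieties, with `W = G` the reductive group, `Γ = G^F`, and
`B = B^F` (the principal series).

Idea of the proof. Over a finite field the cycle maps of a linear variety are bijective
(`good_linear`), so a correspondence which commutes with `Γ` is determined by its action on
homology (`comm_inj`), and the Frobenius eigenvectors fixed by `B` are classes of cycles
(`alg_inv`). Polynomials in Frobenius commute with `Γ`; so the projector to the generalised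
eigenspace for `q^m` is a polynomial in Frobenius modulo rational equivalence. It acts as the
identity on `CH_m(V, i)`, where Frobenius is `q^m`, and factors through points when the eigenspace
is algebraic.
-/

open CategoryTheory AlgebraicGeometry Limits MonoidalCategory CartesianMonoidalCategory

namespace Pool.Agent.Results.MP_7923e9_ag.DeligneLusztig

open Pool.Agent.LibDL68 Pool.Agent.LibPM67

/-- Let `V` be proper and smooth of pure dimension `d` over the finite field `k`, `W` smooth and
geometrically irreducible of dimension `w`, `Γ` a finite group acting on `V` and `W`, and suppose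
that `(V × V × W)/Γ` is a linear variety. (1) `CH_m(X, i) ⊗ E = 0` for `i > 0` and all smooth
proper `X` with a surjective morphism `V ⟶ X`, if `m ≤ 0`, or if the generalised eigenspaces of
Frobenius for `q^m` and `q^(d-m)` on the homology of `V` are spanned by classes of cycles and by
vectors which are fixed by subgroups `B` of `Γ` such that `(V × W)/B` is linear. (2) In the second
case the generalised `q^m`-eigenvectors on the homology of `V` are classes of cycles, and
homological equivalence on `CH_m(V) ⊗ E` is rational equivalence. (3) For all `m` and `i`, a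
correspondence which commutes with `Γ` and is zero on the generalised `q^m`-eigenspace is zero on
`CH_m(V, i) ⊗ E`. -/
theorem result (k : Type) [Field k] [Finite k] (E : Type) [Field E] [CharZero E]
    (T : ChowTheory k E) (V W : Sch k) (d w : ℕ) (hV : IsComplete V) (hVd : IsSmoothDim d V)
    (hWv : IsVar W) (hWd : IsSmoothDim w W) (hW : IsGeomIrred W) (Γ : Type) [Group Γ] [Finite Γ]
    (ρ : Act Γ V) (σ : Act Γ W)
    (hQ : LinQuot fun g : Γ => prdMap (prdMap (ρ.mor g) (ρ.mor g)) (σ.mor g)) (D : Corr T V d) :
    (∀ m : ℤ, (m ≤ 0 ∨ Principal D ρ σ m ∧ Principal D ρ σ (d - m)) →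
      ∀ (X : Sch k) (f : Mor V X) (e : ℕ), IsComplete X → IsSmoothDim e X → (∀ x, InImage f x) →
        ∀ (i : ℕ) (x : T.Chow X m i), 0 < i → IsNull x) ∧
    (∀ m : ℤ, Principal D ρ σ m → Principal D ρ σ (d - m) →
      Tate D m ∧ ∀ x : T.Chow V m 0, IsNull (D.cyc x) → IsNull x) ∧
    ∀ (m : ℤ) (c : D.C), (∀ g, D.gr (ρ.mor g) * c = c * D.gr (ρ.mor g)) →
      (∀ h, GEig (D.hom D.fr) (qK k E ^ m) h → IsNull (D.hom c h)) →
        ∀ (i : ℕ) (x : T.Chow V m i), IsNull (D.act c x) := by
  have hVv : IsVar V := by
    have h1 : IsProper V.hom := hV
    exact new_isVar (Old.isVar_of_proper V h1)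
  have h3 := main V W hVv hWv d w hWd hW ρ σ hQ D
  have ht := tate_of_principal V W hVv hWv d w hWd hW ρ σ D
  have h0 : ∀ m : ℤ, D.cyc (0 : T.CH.h V m 0) = 0 := fun m => (cyc_lin D m).map_zero
  refine ⟨fun m hm X f e hX hXe hf i x hi => ?_, fun m hm hm' => ⟨ht m hm, (h3 m (ht m hm)
    (ht _ hm')).2⟩, fun m c hc h0 i x => act_zero V W hVv hWv d w hWd hW ρ σ hQ D m c hc h0 i x⟩
  obtain ⟨y, rfl⟩ := T.surj f d e m i x hV hVd hX hXe hf
  have h1 : ∀ y : T.CH.h V m i, y = 0 := by
    intro y
    rcases hm with hm | ⟨hm, hm'⟩
    · rcases hm.lt_or_eq with hm | rfl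
      · exact (h3 m (fun h hh => ⟨0, by rw [h0, D.weights.none m (Or.inl hm) h hh]⟩)
          (fun h hh => ⟨0, by rw [h0, D.weights.none ((d : ℤ) - m) (Or.inr (by omega)) h hh]⟩)).1
            i y hi
      · refine (h3 0 D.weights.bottom ?_).1 i y hi
        rw [sub_zero]
        exact D.weights.top
    · exact (h3 m (ht m hm) (ht _ hm')).1 i y hi
  rw [h1 y]
  exact push_zero T.CH f m i

end Pool.Agent.Results.MP_7923e9_ag.DeligneLusztig
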